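import Pool.Agent.P8H30.FF.Main

/-!
# De Rham-Betti classes of degree four on abelian fourfolds

Let `A` be an abelian variety of dimension four over the field of algebraic numbers
(`Pool.Agent.Y102.AbVar 4`). The periods of the differentials of the first and of the second kind
along the elements of the rational homology `H_1(A, ℚ)` are the functions `A.dR`. A rational form
`φ` of degree `2 m` on the homology is a de Rham-Betti class (`IsDeRhamBettiForm`), if
`(2 π i) ^ m * φ (v_1, ..., v_2m)` is a polynomial in the periods along the `v_l`, homogeneous of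
degree one in the periods along each `v_l`, with algebraic coefficients: these are the elements of
`H^{2 m}(A, ℚ(m))` which are algebraic in the de Rham cohomology. Grothendieck's conjecture on the
transcendence degree of the field of periods implies that all de Rham-Betti classes are Hodge
classes.

**Theorem.** If all de Rham-Betti bilinear forms on `H_1(A, ℚ)` are alternating (equivalently, the
Rosati involution is trivial: the simple factors of `A` are pairwise not isogenous and their
endomorphism algebras are totally real fields), then all alternating de Rham-Betti forms of degree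
four are linear combinations of exterior products of two alternating forms of degree two which are
Hodge classes and de Rham-Betti classes.

No assumption is made on the Lie algebra of the group of periods, or on the Mumford-Tate group: the
theorem contains the fourfolds of Mumford.
-/

set_option autoImplicit false

namespace Pool.Agent.Results.MP_57341d_ag.DegreeFourOnFourfolds

open Pool.Agent Pool.Agent.W516.DR Pool.Agent.H204R3.GP Module

/-- the abelian varieties of dimension four over the field of algebraic numbers -/
abbrev Fourfold : Type := Y102.AbVar 4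

/-- the bilinear form `B` on the rational homology of `A` is a de Rham-Betti class:
`2 π i B (u, v)` is a bilinear form with algebraic coefficients in the periods along `u` and the
periods along `v` -/
def IsDRB (A : Fourfold) (B : A.H1 →ₗ[ℚ] A.H1 →ₗ[ℚ] ℚ) : Prop :=
  IsDeRhamBettiBilinear Y102.QBar A.dR (2 * Real.pi * Complex.I) B

/-- the alternating bilinear form `B` on the rational homology of `A` is a divisor class which is
algebraic in the de Rham cohomology: it is alternating, a de Rham-Betti class and a Hodge class -/
def IsDivisorClass (A : Fourfold) (B : A.H1 →ₗ[ℚ] A.H1 →ₗ[ℚ] ℚ) : Prop :=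
  (∀ v, B v v = 0) ∧ IsDRB A B ∧ IsHodgeBilinear (A.per : A.H1 →+ (Fin 4 → ℂ)) B

/-- the value of the exterior product of the alternating bilinear forms `α` and `β` at four
vectors -/
def wedge {W : Type} [AddCommGroup W] [Module ℚ W] (α β : W →ₗ[ℚ] W →ₗ[ℚ] ℚ)
    (v : Fin 2 × Fin 2 → W) : ℚ :=
  α (v (0, 0)) (v (0, 1)) * β (v (1, 0)) (v (1, 1)) -
    α (v (0, 0)) (v (1, 0)) * β (v (0, 1)) (v (1, 1)) +
    α (v (0, 0)) (v (1, 1)) * β (v (0, 1)) (v (1, 0)) +
    α (v (0, 1)) (v (1, 0)) * β (v (0, 0)) (v (1, 1)) -
    α (v (0, 1)) (v (1, 1)) * β (v (0, 0)) (v (1, 0)) +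
    α (v (1, 0)) (v (1, 1)) * β (v (0, 0)) (v (0, 1))

/-- **De Rham-Betti classes of degree four on abelian fourfolds with trivial Rosati involution are
linear combinations of products of two divisor classes.** -/
theorem result (A : Fourfold)
    -- all de Rham-Betti bilinear forms are alternating
    (hA : ∀ B : A.H1 →ₗ[ℚ] A.H1 →ₗ[ℚ] ℚ, IsDRB A B → ∀ v, B v v = 0)
    -- `φ` is an alternating de Rham-Betti form of degree four
    (φ : MultilinearMap ℚ (fun _ : Fin 2 × Fin 2 => A.H1) ℚ)
    (halt : ∀ v : Fin 2 × Fin 2 → A.H1, ∀ i j, i ≠ j → v i = v j → φ v = 0)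
    (hφ : IsDeRhamBettiForm Y102.QBar A.dR (2 * Real.pi * Complex.I) 2 φ) :
    φ ∈ Submodule.span ℚ {ψ : MultilinearMap ℚ (fun _ : Fin 2 × Fin 2 => A.H1) ℚ |
      ∃ α β, IsDivisorClass A α ∧ IsDivisorClass A β ∧ ∀ v, ψ v = wedge α β v} := by
  have hdrb : ∀ P ∈ A.EA, IsDRB A (A.om.comp P) := by
    intro P hP
    have hE := A.mem_EA.1 hP
    rw [← Y102.AbVar.coe_basis] at hE
    unfold IsDRB
    rw [← Y102.AbVar.coe_basis]
    exact drb_comp_end A.basis Y102.tau A.om A.om_drb' P hE
  have hdiv : ∀ P ∈ A.EA, IsDivisorClass A (A.om.comp P) := by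
    intro P hP
    refine ⟨hA _ (hdrb P hP), hdrb P hP, ?_⟩
    obtain ⟨E, hE', hinv⟩ := A.isHodge_om
    obtain ⟨P', hP'⟩ := A.hodge_end (A.mem_EA.1 hP)
    refine ⟨E.comp (P'.restrictScalars ℝ), fun x y => ?_, fun z hz u v => ?_⟩
    · rw [LinearMap.comp_apply, LinearMap.comp_apply, LinearMap.restrictScalars_apply,
        hP', hE']
    · rw [LinearMap.comp_apply, LinearMap.comp_apply, LinearMap.restrictScalars_apply,
        LinearMap.restrictScalars_apply, P'.map_smul, hinv z hz]
  have hsym : ∀ P ∈ A.EA, ∀ u v, A.om (P u) v = A.om u (P v) := by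
    intro P hP u v
    have h1 : ∀ w, A.om (P w) w = 0 := hA _ (hdrb P hP)
    have h2 := h1 (u + v)
    simp only [map_add, LinearMap.add_apply, h1, zero_add, add_zero] at h2
    rw [A.om_anti u (P v)]
    linear_combination h2
  have h1 := P8H30.FF.main A hsym hφ halt
  refine Submodule.span_mono ?_ h1
  rintro _ ⟨P, hP, R, hR, rfl⟩
  exact ⟨A.om.comp P, A.om.comp R, hdiv P hP, hdiv R hR, fun v => rfl⟩

end Pool.Agent.Results.MP_57341d_ag.DegreeFourOnFourfolds
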