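import Pool.Agent.P8H40.CY.Fin4
import Pool.Agent.P8H40.CY.Gsp
import Pool.Agent.P8H93.CY.Eli
import Pool.Agent.P8H5.CY.Gre
import Pool.Agent.P8H40.CY.Trd
import Pool.Agent.P8H45.CY.Mat
import Pool.Agent.P8H93.CY.Gen
import Pool.Agent.P8H7.CY.Rec

/-!
# The period conjecture in bounded degree for the fibres of the hypergeometric families of Calabi-Yau type

Let `α_1, …, α_m` be rational numbers which are not integers, `c ≥ 1` an integer and `θ = x d/dx`. The hypergeometric operator
`θ^(2m) - c x ∏_j (θ + α_j) (θ + 1 - α_j)` has maximally unipotent monodromy at `x = 0`, and its solutions are the periods of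
a one-parameter family of motives `M_t` over `ℚ` of rank `2m`, `x = 1/t`. For `m = 2` these are the 14 hypergeometric
families of Calabi-Yau threefolds; for `α = (1/5, 2/5)`, `c = 5^5` it is the family of the mirrors of the quintic threefolds.
The period matrix is `P_t = R_t Y(1/t) Ω U_t`, where the entries of `Y` are the derivatives `θ^i f_j` of the Frobenius basis of
solutions, `Ω` is the matrix of the periods of the limit motive at `x = 0`, and `R_t`, `U_t` are matrices over a number field `K`
(bases of the de Rham and of the Betti realisation). There are rational alternating matrices `J_t`, `J_lim` such that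
`Y(1/t)ᵀ J_t Y(1/t) = J_lim` and `Ωᵀ J_lim Ω = λ J_lim`, with `λ` a power of `2πi` (up to a rational number); these are the
Riemann relations. For the mirror quintics the entries of `Ω` are polynomials in `2πi` and `ζ(3)`.

The period conjecture for the motive `M_{t_1} ⊕ … ⊕ M_{t_k}` with the largest possible Mumford-Tate group (symplectic
similitudes with a common multiplier, dimension `k m (2m + 1) + 1`; for the mirror quintics `10 k + 1`) says that all
polynomial relations over `K` between the entries of `P_{t_1}, …, P_{t_k}` hold on the whole torsor of this group, the set of the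
`R_{t_l} X_l U_{t_l}` with `X_lᵀ J_{t_l} X_l = μ J_lim`, `μ ≠ 0`.

**Theorem.** Suppose that the entries of `Ω` are polynomials of degree at most `δ` in some numbers `ω_1, …, ω_s` (for the mirror
quintics `s = 2`), over `K`, and that `λ` is transcendental. Let `T` be any set of integers in the interval `[M, M + M^κ]` with
mutual distances at least `G`. Then `T` has at most `s + 1` exceptional elements such that for all different `t_1, …, t_k` among
the other ones the conclusion of the period conjecture holds for all relations of degree at most `δ` in each of the entries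
of `P_{t_1}, …, P_{t_k}` and in the `log t_l`, with coefficients of any height in any number field `K` of degree at most `D`. (The
numbers `log t_l`, periods of Kummer motives, may be replaced by any numbers.) In particular, the numbers `log t_l` and
some `k m (2m + 1) + 1` of the periods of `M_{t_1} ⊕ … ⊕ M_{t_k}` satisfy together no nonzero relation of degree at most `δ` in
each of them: the transcendence degree in degree at most `δ` is at least the dimension of the group.

Proof: at fibres with distances at least `G` the holomorphic parts are independent (the linear independence criterion of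
the starting files, `Pool.Agent.Y124`). If a tuple has a further relation over `K(ω)` then one of its fibres is dependent, in
bounded degree, over the `ω_i` and the other fibres. One obtains `s + 2` fibres, each dependent over the `ω_i`, the preceding
ones and fibres outside, and the ring generated by everything grows too slowly. So all relations over `K` hold for all
`X_l` with `μ = λ` (the symplectic matrices are parametrised by the Cayley transform); since the torsor has a dense set of rational
points and `λ` is transcendental, they hold for all `μ`. The entries of the `R_l X_l U_l` at a generic point of the torsor have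
transcendence degree `k m (2m + 1) + 1` (by the Cayley transform). (Authors: helper40; helper52: Cayley transform and density;
helper76: substitution with denominators; helper93: partial evaluation of relations, generic point; helper5: choice of
the exceptions; helper7: generic point; helper45: exchange.)
-/

set_option autoImplicit false

open PowerSeries Module

namespace Pool.Agent.Results.MP_57341d_ag.HypergeometricPeriodRelations

/-- the power series `k + ε` in the variable `ε` -/
noncomputable def shift (k : ℕ) : PowerSeries ℚ := C (k : ℚ) + X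

/-- `a_k(ε) = ∏_{l < k} ∏_j (l + ε + α_j) (l + ε + 1 - α_j) / (l + 1 + ε)^(2m)`. The series
`∑_k a_k(ε) c^k x^(k + ε)` solves the equation `(θ^(2m) - c x ∏_j (θ + α_j) (θ + 1 - α_j)) f = ε^(2m) x^ε`, hence its
coefficients `f_j` at `ε^j` with `j < 2m` are solutions of the homogeneous equation (the Frobenius basis). -/
noncomputable def frob {m : ℕ} (α : Fin m → ℚ) (k : ℕ) : PowerSeries ℚ :=
  ∏ l ∈ Finset.range k, ((∏ j, ((shift l + C (α j)) * (shift l + C (1 - α j)))) * ((shift (l + 1))⁻¹) ^ (2 * m))

/-- The matrix with the entries `(θ^i f_j)(1 / t)`, where `f_j(x)` is the coefficient of `ε^j` in the series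
`∑_k a_k(ε) c^k x^(k + ε)`, `x^ε = ∑_l (log x)^l ε^l / l!`. -/
noncomputable def Y {m : ℕ} (α : Fin m → ℚ) (c t : ℕ) : Matrix (Fin (2 * m)) (Fin (2 * m)) ℂ :=
  Matrix.of fun i j => ∑ l ∈ Finset.range ((j : ℕ) + 1), ((Real.log (1 / t) ^ l / l.factorial : ℝ) : ℂ) *
    ∑' k : ℕ, ((coeff ((j : ℕ) - l) (shift k ^ (i : ℕ) * frob α k) : ℚ) : ℂ) * ((c : ℂ) / (t : ℂ)) ^ k

/-- The values of the unknowns: the numbers `L l` and the entries of the matrices `P l`. -/
def point {n k : ℕ} (L : Fin k → ℂ) (P : Fin k → Matrix (Fin n) (Fin n) ℂ) : Fin k × Option (Fin n × Fin n) → ℂ :=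
  fun o => o.2.elim (L o.1) fun p => P o.1 p.1 p.2

/-- The conclusion of the period conjecture in degree at most `δ` for the fibres at `1/t l`, with the period matrices
`R l Y(1/t l) Ω U l`, and the logarithms of the `t l`: every relation over `K` of degree at most `δ` between the `log (t l)` and the
entries of the period matrices holds for all `L l` and all `R l X l U l` with `(X l)ᵀ J (t l) (X l) = μ Jlim`, `μ ≠ 0`. -/
def Relations {m k : ℕ} (α : Fin m → ℚ) (c : ℕ) (t : Fin k → ℕ) (J : ℕ → Matrix (Fin (2 * m)) (Fin (2 * m)) ℚ)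
    (Jlim : Matrix (Fin (2 * m)) (Fin (2 * m)) ℚ) (δ : ℕ) (K : IntermediateField ℚ ℂ)
    (R U : Fin k → Matrix (Fin (2 * m)) (Fin (2 * m)) K) (Ω : Matrix (Fin (2 * m)) (Fin (2 * m)) ℂ) : Prop :=
  ∀ F : MvPolynomial (Fin k × Option (Fin (2 * m) × Fin (2 * m))) K, (∀ x, F.degreeOf x ≤ δ) →
    MvPolynomial.aeval (point (fun l => ((Real.log (t l) : ℝ) : ℂ))
      fun l => (R l).map (algebraMap K ℂ) * (Y α c (t l) * Ω) * (U l).map (algebraMap K ℂ)) F = 0 →
    ∀ (μ : ℂ), μ ≠ 0 → ∀ (L : Fin k → ℂ) (X : Fin k → Matrix (Fin (2 * m)) (Fin (2 * m)) ℂ),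
      (∀ l, (X l).transpose * (J (t l)).map (algebraMap ℚ ℂ) * X l = μ • Jlim.map (algebraMap ℚ ℂ)) →
      MvPolynomial.aeval (point L fun l => (R l).map (algebraMap K ℂ) * X l * (U l).map (algebraMap K ℂ)) F = 0

/-- The numbers `log (t l)` and some `N` of the entries of the matrices `P l` satisfy together no nonzero relation over `K` of
degree at most `δ` in each of them. -/
def Independent {n k : ℕ} (N δ : ℕ) (K : IntermediateField ℚ ℂ) (t : Fin k → ℕ) (P : Fin k → Matrix (Fin n) (Fin n) ℂ) : Prop :=
  ∃ σ : Fin N → Fin k × Fin n × Fin n, Function.Injective σ ∧ ∀ Q : MvPolynomial (Fin k ⊕ Fin N) K, (∀ x, Q.degreeOf x ≤ δ) →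
    MvPolynomial.aeval (Sum.elim (fun l => ((Real.log (t l) : ℝ) : ℂ)) fun i => P (σ i).1 (σ i).2.1 (σ i).2.2) Q = 0 → Q = 0

theorem Y_eq {m : ℕ} (α : Fin m → ℚ) (c t : ℕ) (hc : 1 ≤ c) (ht : 1 ≤ t) : Y α c t = Pool.Agent.P8H40.HA.Ya α c t := by
  have hc0 : (c : ℝ) ≠ 0 := by
    have : c ≠ 0 := by omega
    exact_mod_cast this
  have ht0 : (t : ℝ) ≠ 0 := by
    have : t ≠ 0 := by omega
    exact_mod_cast this
  ext i j
  unfold Y Pool.Agent.P8H40.HA.Ya
  rw [Matrix.of_apply, Matrix.mul_apply]
  have hE : ∀ a : Fin (2 * m), Pool.Agent.Y119.HY.E (Pool.Agent.Y119.HY.cm (Pool.Agent.Y119.HY.Am (2 * m)))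
      (-((Real.log t : ℝ) : ℂ)) a j = ∑ l ∈ Finset.range (2 * m),
        if (j : ℕ) = a + l then ((Real.log (1 / t) ^ l / l.factorial : ℝ) : ℂ) else 0 := by
    intro a
    unfold Pool.Agent.Y119.HY.E
    rw [Matrix.sum_apply]
    refine Finset.sum_congr rfl fun l _ => ?_
    rw [Matrix.smul_apply, ← Pool.Agent.Y119.HY.cm_pow, Pool.Agent.Y119.HY.cm_apply, Pool.Agent.Y119.HY.Am_pow, smul_eq_mul,
      one_div, Real.log_inv]
    split_ifs
    · push_cast
      ring
    · simp
  simp only [hE, Finset.mul_sum]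
  rw [Finset.sum_comm]
  have hsub : Finset.range ((j : ℕ) + 1) ⊆ Finset.range (2 * m) := by
    intro l hl
    rw [Finset.mem_range] at hl ⊢
    have := j.2
    omega
  refine Finset.sum_subset_zero_on_sdiff hsub (fun l hl => ?_) fun l hl => ?_
  · rw [Finset.mem_sdiff, Finset.mem_range, Finset.mem_range] at hl
    refine Finset.sum_eq_zero fun a _ => ?_
    rw [if_neg (by omega), mul_zero]
  · rw [Finset.mem_range] at hl
    have hj := j.2
    rw [Finset.sum_eq_single (⟨(j : ℕ) - l, by omega⟩ : Fin (2 * m))]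
    · rw [if_pos (by simp only; omega), mul_comm]
      congr 1
      unfold Pool.Agent.P8H40.HA.Vx Pool.Agent.Y113.ev
      rw [Matrix.of_apply, Complex.ofReal_tsum]
      refine tsum_congr fun k => ?_
      have h1 : coeff k (Pool.Agent.P8H40.HA.Ha α i (⟨(j : ℕ) - l, by omega⟩ : Fin (2 * m))) =
          coeff ((j : ℕ) - l) (shift k ^ (i : ℕ) * frob α k) := by
        unfold Pool.Agent.P8H40.HA.Ha
        rw [Matrix.of_apply, coeff_mk]
        rfl
      have h2 : (1 / ((t : ℝ) / c)) = (c : ℝ) / t := by
        field_simp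
      rw [h1, h2]
      push_cast
      rfl
    · intro a _ ha
      rw [if_neg, mul_zero]
      intro h
      apply ha
      apply Fin.ext
      simp only
      omega
    · intro h
      exact absurd (Finset.mem_univ _) h

/-- The theorem. `G`, `t₀`, `J` and `Jlim` depend only on the family, `κ` and `M₀` only on the family and on `k, s, δ, D`, and the
exceptional set `S` only on these, on `M`, `ω` and `T`. As `t l ≥ t₀ > c`, the series in the definition of `Y` converge
absolutely. The period matrices lie on the torsors: `X = Y(1/t) Ω` satisfies `Xᵀ J_t X = λ Jlim`. -/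
theorem result (m : ℕ) (hm : 1 ≤ m) (α : Fin m → ℚ) (hα : ∀ j, ∀ a : ℤ, α j ≠ a) (c : ℕ) (hc : 1 ≤ c) :
    ∃ (G t₀ : ℕ) (J : ℕ → Matrix (Fin (2 * m)) (Fin (2 * m)) ℚ) (Jlim : Matrix (Fin (2 * m)) (Fin (2 * m)) ℚ),
      c < t₀ ∧ Jlim.transpose = -Jlim ∧ Jlim.det ≠ 0 ∧
      (∀ t : ℕ, t₀ ≤ t → (J t).transpose = -J t ∧ (J t).det ≠ 0 ∧
        (Y α c t).transpose * (J t).map (algebraMap ℚ ℂ) * Y α c t = Jlim.map (algebraMap ℚ ℂ)) ∧
      ∀ k s δ D : ℕ, ∃ (κ : ℝ) (M₀ : ℕ), 0 < κ ∧ t₀ ≤ M₀ ∧ ∀ M : ℕ, M₀ ≤ M → ∀ ω : Fin s → ℂ,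
        ∀ T : Finset ℕ, (∀ t ∈ T, M ≤ t ∧ (t : ℝ) ≤ M + (M : ℝ) ^ κ) → (∀ t ∈ T, ∀ t' ∈ T, t ≠ t' → (G : ℤ) ≤ |(t : ℤ) - t'|) →
        ∃ S : Finset ℕ, S ⊆ T ∧ S.card ≤ s + 1 ∧ ∀ t : Fin k → ℕ, Function.Injective t → (∀ l, t l ∈ T \ S) →
          ∀ (K : IntermediateField ℚ ℂ) [FiniteDimensional ℚ K], finrank ℚ K ≤ D →
            ∀ (R U : Fin k → Matrix (Fin (2 * m)) (Fin (2 * m)) K) (Ω : Matrix (Fin (2 * m)) (Fin (2 * m)) ℂ) (lam : ℂ),
              (∀ i j, ∃ p : MvPolynomial (Fin s) K, (∀ x, p.degreeOf x ≤ δ) ∧ Ω i j = MvPolynomial.aeval ω p) →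
              Transcendental ℚ lam →
              Ω.transpose * Jlim.map (algebraMap ℚ ℂ) * Ω = lam • Jlim.map (algebraMap ℚ ℂ) →
              Relations α c t J Jlim δ K R U Ω ∧
                (0 < k → (∀ l, (R l).det ≠ 0) → (∀ l, (U l).det ≠ 0) → Independent (k * (m * (2 * m + 1)) + 1) δ K t
                  fun l => (R l).map (algebraMap K ℂ) * (Y α c (t l) * Ω) * (U l).map (algebraMap K ℂ)) := by
  obtain ⟨G, t₀, J, Jl, hG1, htc, hJl1, hJl2, hJ, hdense, hmain⟩ := Pool.Agent.P8H40.CY.final_T Pool.Agent.P8H93.CY.eli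
    (Pool.Agent.P8H5.CY.gre Pool.Agent.P8H40.CY.clt) hm α hα c hc
  refine ⟨G, t₀, J, Jl, htc, hJl1, hJl2, fun t ht => ?_, fun k s δ D => ?_⟩
  · obtain ⟨h1, h2, h3, -⟩ := hJ t ht
    rw [Y_eq α c t hc (by omega)]
    exact ⟨h1, h2, h3⟩
  · obtain ⟨κ, M₀, hκ, hM₀, h⟩ := hmain k s δ D
    refine ⟨κ, M₀, hκ, hM₀, fun M hM ω T hT hTs => ?_⟩
    obtain ⟨S, hS, hSc, hSt⟩ := h M hM ω T hT hTs
    refine ⟨S, hS, hSc, fun t htinj htT K _ hK R U Ω lam hΩ hlam hΩl => ?_⟩
    have ht : ∀ l, t₀ ≤ t l := fun l => hM₀.trans (hM.trans (hT (t l) (Finset.mem_sdiff.1 (htT l)).1).1)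
    have hmainrel : Relations α c t J Jl δ K R U Ω := by
      intro F hF h0
      have hren : ∀ (z : Fin s → ℂ) (L : Fin k → ℂ) (X : Fin k → Matrix (Fin (2 * m)) (Fin (2 * m)) ℂ),
          MvPolynomial.aeval (Pool.Agent.P8H40.CY.ptk z L X) (MvPolynomial.rename Sum.inr F) =
            MvPolynomial.aeval (Pool.Agent.P8H40.CY.px L X) F := by
        intro z L X
        rw [MvPolynomial.aeval_rename]
        rfl
      have hrenF : ∀ x, (MvPolynomial.rename (Sum.inr : _ → Fin s ⊕ Fin k × Option (Fin (2 * m) × Fin (2 * m))) F).degreeOf x ≤ δ :=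
        Pool.Agent.P8H40.CY.degreeOf_rename_le Sum.inr_injective hF
      have hrel := hSt t htinj htT K hK R (fun l => Ω * (U l).map (algebraMap K ℂ)) (fun l i j => by
        choose p hp hpΩ using hΩ
        refine ⟨∑ x, MvPolynomial.C (U l x j) * p i x, fun y => ?_, ?_⟩
        · refine (MvPolynomial.degreeOf_sum_le y Finset.univ _).trans (Finset.sup_le fun x _ => ?_)
          exact (MvPolynomial.degreeOf_C_mul_le _ _ _).trans (hp i x y)
        · rw [Matrix.mul_apply, map_sum]
          refine Finset.sum_congr rfl fun x _ => ?_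
          rw [map_mul, MvPolynomial.aeval_C, Matrix.map_apply, hpΩ, mul_comm]) (MvPolynomial.rename Sum.inr F) hrenF (by
        rw [hren]
        have hY : (fun l => (R l).map (algebraMap K ℂ) * Pool.Agent.P8H40.HA.Ya α c (t l) * (Ω * (U l).map (algebraMap K ℂ))) =
            fun l => (R l).map (algebraMap K ℂ) * (Y α c (t l) * Ω) * (U l).map (algebraMap K ℂ) := by
          funext l
          rw [Y_eq α c (t l) hc (by have := ht l; omega)]
          simp only [Matrix.mul_assoc]
        rw [hY]
        exact h0)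
      refine Pool.Agent.P8H40.CY.gsp_ext (J := fun l => J (t l)) hJl2 R U Ω hlam hΩl F (fun L X hX => ?_) (fun P B hPB L X hX => ?_)
      · have h1 := hrel L X hX
        rw [hren] at h1
        exact h1
      · have h1 := hdense k s t ht K (MvPolynomial.rename Sum.inr F) ω P B (fun L X hX => by
          rw [hren]
          exact hPB L X hX) L X hX
        rw [hren] at h1
        exact h1
    refine ⟨hmainrel, fun hk hR hU => ?_⟩
    have h1 := Pool.Agent.P8H40.CY.trd Pool.Agent.P8H45.CY.mat (Pool.Agent.P8H93.CY.gen Pool.Agent.P8H7.CY.rec_sub) (by omega) hk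
      (fun l => (hJ (t l) (ht l)).1) (fun l => (hJ (t l) (ht l)).2.1) hJl2 (fun l => (hJ (t l) (ht l)).2.2.2) R U hR hU
      (fun l => ((Real.log (t l) : ℝ) : ℂ))
      (fun l => (R l).map (algebraMap K ℂ) * (Y α c (t l) * Ω) * (U l).map (algebraMap K ℂ)) hmainrel
    have hN : k * (2 * m * (2 * m + 1) / 2) + 1 = k * (m * (2 * m + 1)) + 1 := by
      rw [Nat.mul_assoc 2 m, Nat.mul_div_cancel_left _ (by norm_num)]
    rw [hN] at h1
    exact h1

end Pool.Agent.Results.MP_57341d_ag.HypergeometricPeriodRelations
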