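import Pool.Agent.P8H30.SD.Fin

set_option autoImplicit false

/-!
# The torsors of periods of motives whose Mumford-Tate domain is a product of half planes and of
domains of type IV

Let `A` be an abelian variety over `ℚ̄` and let `M` be any André motive over `ℚ̄` in the tensor
category generated by `h^1(A)` and the Tate motives. (By theorems of André this class of motives,
for all `A`, contains the motives of products of curves, abelian varieties, K3 surfaces,
hyperkähler varieties, cubic fourfolds and Fermat hypersurfaces.) Let `P` be the matrix of the periods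
of `M`, and let `G ⊆ GL(H_B(M))` be *any* algebraic group over `ℚ` such that the comparison
isomorphism of `M` is a point of a torsor of `G` defined over `ℚ̄`: `P T ∈ G(ℂ)` for some matrix `T`
with algebraic entries. The equality in Q1 implies that every such `G` contains the Mumford-Tate group
`MT(M)` (if `G` does not contain `MT(M)`, then the intersection of the two groups has smaller
dimension, and the transcendence degree is at most this dimension).

Let `𝔤` be the Lie algebra of the endomorphisms of `H_1(A, ℚ)` which annihilate all classes that are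
Hodge classes and de Rham-Betti classes; it is the Lie algebra of the Hodge group of `A`.

**Spin parts** (`SpinPart`). Let `W` be a direct summand of the `𝔤`-module `H_1(A, ℂ)`, with the
inclusion `P` and the projection `Q` (`Q P = 1`). The summand `W` is a spin part of rank `r` if there
are `r` anticommuting endomorphisms `E i` of `W` with square `1`, such that `𝔤` acts on `W` through the
Lie algebra `so(r)`, spanned by the products `E i * E j` of two different generators, and the scalars,
and such that the associative algebra generated by `𝔤 ⊗ ℂ` on `W` contains these products; `r = 3`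
or `r ≥ 6`. In other words `W` is the spin representation of `so(r)` (with some multiplicity; for
`r = 3` this is the standard representation of `sl(2)`). The summand `W` need not be defined over `ℚ`,
or over the real numbers, and the scalars can be arbitrary.

**Families of spin parts** (`Unlinked`). Let `W_1, ..., W_k` be spin parts. We assume for `i ≠ j` one of
the following: the ranks are different; or `𝔤` acts on `W_i` and `W_j` with the same scalars, and there
is no nonzero `𝔤`-linear map from `W_i` to `W_j`; or there is no nonzero `𝔥`-linear map for all rational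
Lie subalgebras `𝔥` of `[𝔤, 𝔤]` which together with the centre of `𝔤` generate the associative algebra
generated by `𝔤`, and have the same image on `W_i` and the same image on `W_j` as `[𝔤, 𝔤]`, over `ℂ`.
Nothing is assumed about the action of `𝔤` on the complement of the sum of the parts.

**The domain of `M`** (`DomainOf`). We assume that the elements of `[𝔤, 𝔤] ⊗ ℂ` which act trivially on
all `W_i` act on `M` by matrices which commute with the complex structure `N` of `M` (the generator of
the Lie algebra of the circle in the Hodge structure of `M`): the part of the Hodge group of `A` which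
acts trivially on `W_1, ..., W_k` acts trivially on the Mumford-Tate domain of `M`. Nothing else is
assumed about `M`.

**Theorem.** 1. `G` contains the derived group of `MT(M)`: for all elements `Z` of the derived algebra
of the Lie algebra of the Hodge group of `M`, and all complex numbers `t`, the matrix `exp (t Z)` is in
`G`. 2. If `A` has no factor of type IV, or if the centre of the Lie algebra of the Hodge group acts
trivially on `M`, then `G` contains `MT(M)`.

## Which motives are these? (Explanations, not part of the statement)

The Hodge structure of `H_1(A)` has only two Hodge types, so the real form of `so(r)` which acts on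
`W_i` is compact, or `so(2, r - 2)` (or `so*(6)`, `so*(8)`, which are `su(1, 3)` and `so(2, 6)`): the
Mumford-Tate domain of `M` is a product of domains of type IV and dimension `r_i - 2 ≥ 4`, of half
planes (`r_i = 3`), and of balls of dimension three. **Any number of factors of the domain, and
any number of noncompact places, are allowed.** Conversely let `M` be any motive of abelian type (in
the tensor category of `h^1(A')`) such that the real points of its adjoint Mumford-Tate group are a
product of groups `SO(2, r_i - 2)` with `r_i = 3` or `r_i ≥ 6`, and have no compact factors. By the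
classification of Satake and Deligne of the symplectic representations there is an abelian variety
`A''` over `ℚ̄` without factors of type IV whose homology is the sum of the spin representations of
the simple factors, with the scalars `0`; two different factors give parts without nonzero `𝔤`-linear
maps. We take `A = A' × A''`. So the theorem says that for **all** such motives of abelian type every
`G` contains the derived group of `MT(M)`, and `MT(M)` if its centre consists of homotheties. Examples:

* the motives in the tensor categories of the abelian varieties on the orthogonal Shimura varieties of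
  the quadratic spaces over totally real fields `F` which have the signature `(2, r - 2)` at **all**
  real places, `r ≥ 6` (spin representations; there are no motives of K3 type on them if `F ≠ ℚ`),
  and arbitrary products of such abelian varieties, with motives of K3 type of rank at least six, with
  elliptic curves without complex multiplication, and abelian varieties of Hilbert-Blumenthal type;
* if there are compact factors, then the third possibility in `Unlinked` is used: the parts are given
  by abelian varieties with multiplication by CM fields (twists), where the scalars are different. For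
  example let `M` be the product of motives `M_i` of K3 type with real multiplication by totally real
  fields `F_i`, of rank at least six over `F_i`, which are not isomorphic to each other up to twists
  and isogeny, and let `A` be the product of the Kuga-Satake varieties and of the abelian varieties
  which are given by the spin representations of the single places, twisted by CM fields. The centre
  of `𝔤` acts trivially on the homology of the Kuga-Satake varieties, which is the sum of the tensor
  products of the spin representations of all places of one `F_i`. So a Lie algebra `𝔥` as in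
  `Unlinked` has the same commutant as `𝔤` there, and it follows that `𝔥 = [𝔤, 𝔤]`. For a quadratic
  space over `F` which has the signature `(2, r - 2)` at two or more places, and is definite at other
  places, the third possibility holds if its orthogonal Lie algebra is not obtained by extension of
  scalars from a Lie algebra over a proper subfield of `F`.

Known before (in the starting library): one spin part with several colours, so that the
Mumford-Tate domain is irreducible (`SpinDomainMotives` in `Pool/Agent/Results/MP_cbf1af_ag`; at most
one noncompact place), products of balls (`ProductsOfBalls`), and the tensor categories of the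
Kuga-Satake varieties themselves. New here: several parts, which give domains which are products, and
all motives `M` with these domains.

For `r = 5` the Lie algebra `sl(2)` acts irreducibly on the spin representation of `so(5)`, which has
dimension four, so that this case cannot be reached in this way. (For `r = 4` the Lie algebra
`so(4)` is the sum of two Lie algebras `so(3)`, and gives two parts.)

Nothing is assumed about periods: `AbVar` is the description of an abelian variety over `ℚ̄` by theta
functions (see `Pool/Agent/Y102/AVDefs.lean`, where it is explained why every abelian variety has it),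
and the transcendence theorems which are used, the theorem of Schneider and Lang and the
transcendence of `π`, are proved in this repository.

## Motives

As `h^1(A)` is dual to `h^1(A)(1)`, the motive `M` is a direct factor of a sum of motives
`h^1(A) ^ {⊗ r i} (w i)`. Its Betti realization is a space of families of multilinear forms with
rational values, in `r i` variables in `H_1(A, ℚ)`, with a basis `B`. It is the image of a motivated
projector, and the realizations of motivated classes are Hodge classes and de Rham-Betti classes; so
it is stable under `𝔤` (`InLie`), and under the weights. The de Rham realization has a basis which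
consists of combinations of products of elements of `H^1_dR(A / ℚ̄)` with algebraic coefficients. The
matrix `P` of the periods expresses it in terms of the basis `(2 π i) ^ (w i) B` of the Betti
realization (`IsMotive`).

## Proof

Let `L` be the Lie algebra of `G`, and let `𝔮` be the set of the `X` in `𝔤` whose action on `M` is in
`L` up to a multiple of the weight operator. By the theorem of Schneider and Lang `𝔮` acts semisimply on
`H_1(A, ℚ)`, with the same commutant as `𝔤` (`Pool.Agent.N208.AM.qM_full`).

1. One spin part is rigid: a Lie subalgebra of `so(r)` which generates the same associative algebra on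
   `W` is `so(r)` (`so1_rigid`; for `r = 3` this is elementary, `Quat.rigid`). So `[𝔮, 𝔮] ⊗ ℂ` and
   `[𝔤, 𝔤] ⊗ ℂ` have the same image `so(r)`, a simple Lie algebra, in the endomorphisms of `W`.
2. Two parts `W_i`, `W_j`: either the elements of `[𝔮, 𝔮] ⊗ ℂ` which act trivially on `W_j` have the
   image `so(r_i)` on `W_i`, or the image of `[𝔮, 𝔮] ⊗ ℂ` is the graph of an isomorphism of `so(r_i)` and
   `so(r_j)` (`dich`). Then `r_i = r_j`, and there is a nonzero linear map `T : W_i → W_j` which commutes
   with `[𝔮, 𝔮]`: for `r ≥ 6` the orders of the images of the generators are used (`Lk.exists_T'`, for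
   `r = 8` this excludes the triality), for `r = 3` the map is an average over the quaternion group
   (`Quat.link`). If the scalars are equal, `T` commutes with `𝔮` and with `𝔤`. This contradicts
   `Unlinked`.
3. By the lemma of Goursat and Ribet `[𝔮, 𝔮] ⊗ ℂ` and `[𝔤, 𝔤] ⊗ ℂ` have the same image on
   `W_1 ⊕ ... ⊕ W_k` (`dpart_fam`).
4. Let `m` and `e` be the real spans of the actions of `[𝔤, 𝔤]` and `[𝔮, 𝔮]` on `M`, and let `n` be the
   ideal of the real parts of the actions on `M` of the elements of `[𝔤, 𝔤] ⊗ ℂ` which act trivially
   on all `W_i`. Then `m = e + n`, and `n` commutes with `N`. By a lemma on real Lie algebras with a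
   Cartan involution (`Pool.Agent.N113.BT.mem_of_sup`) `N` is in `e`, up to the centre.
-/

open Module Matrix Pool.Agent.Y102 Pool.Agent.W516.DR Pool.Agent.H204R3.GP

noncomputable section

namespace Pool.Agent.Results.MP_57341d_ag.ProductsOfTypeIVDomains

variable {g : ℕ} (A : AbVar g)

/-! ### The Lie algebra -/

/-- The multilinear forms in `2m` variables in the rational homology. -/
abbrev Form (m : ℕ) : Type := MultilinearMap ℚ (fun _ : Fin m × Fin 2 => A.H1) ℚ

/-- `φ` is a de Rham-Betti class in `H^1(A) ^ {⊗ 2m} (m)`. -/
def IsDRB {m : ℕ} (φ : Form A m) : Prop :=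
  IsDeRhamBettiForm QBar A.dR (2 * Real.pi * Complex.I) m φ

/-- `φ` is a Hodge class in `H^1(A) ^ {⊗ 2m} (m)`. -/
def IsHodge {m : ℕ} (φ : Form A m) : Prop := IsHodgeTensor (A.per : A.H1 →+ (Fin g → ℂ)) φ

/-- The endomorphism `X` annihilates the form `φ` (as a derivation). -/
def Annihilates {m : ℕ} (X : Module.End ℚ A.H1) (φ : Form A m) : Prop :=
  ∀ v, ∑ k, φ (Function.update v k (X (v k))) = 0

/-- `X` is in the Lie algebra `𝔤`: it annihilates all classes that are Hodge classes and
de Rham-Betti classes. -/
def InLie (X : Module.End ℚ A.H1) : Prop :=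
  ∀ (m : ℕ) (φ : Form A m), IsHodge A φ → IsDRB A φ → Annihilates A X φ

/-- The algebra of the endomorphisms of `H_1(A, ℂ)`, as matrices for the basis of the lattice. -/
abbrev EndC (_ : AbVar g) : Type := Matrix (Fin (2 * g)) (Fin (2 * g)) ℂ

/-- The matrix of the extension of an endomorphism of `H_1(A, ℚ)` to `H_1(A, ℂ)`. -/
def toC (X : Module.End ℚ A.H1) : EndC A := Matrix.of fun i j => (X (Pi.single j 1) i : ℂ)

/-- The complex Lie algebra `𝔤 ⊗ ℂ`, acting on `H_1(A, ℂ)`. -/
def lieC : Submodule ℂ (EndC A) := Submodule.span ℂ {Y | ∃ X, InLie A X ∧ Y = toC A X}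

/-! ### Spin parts -/

/-- The data of a summand `W` of `H_1(A, ℂ)`: the inclusion `P` of a space of dimension `dim`, a
projection `Q` to this space, and endomorphisms `E i` of this space. -/
structure Summand (g : ℕ) where
  rank : ℕ
  dim : ℕ
  E : Fin rank → Matrix (Fin dim) (Fin dim) ℂ
  P : Matrix (Fin (2 * g)) (Fin dim) ℂ
  Q : Matrix (Fin dim) (Fin (2 * g)) ℂ

/-- The Lie algebra `so(r)`: the span of the products of two different generators. -/
def so (W : Summand g) : Submodule ℂ (Matrix (Fin W.dim) (Fin W.dim) ℂ) :=
  Submodule.span ℂ {Y | ∃ i j, i ≠ j ∧ Y = W.E i * W.E j}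

/-- The action of `X` on the summand `W`. -/
def act (W : Summand g) (X : Module.End ℚ A.H1) : Matrix (Fin W.dim) (Fin W.dim) ℂ :=
  W.Q * toC A X * W.P

/-- **A spin part** `W` of `H_1(A, ℂ)` of rank `r`: `Q` is a projection to `W`, and the projector
`P * Q` commutes with `𝔤`. The `E i` are anticommuting endomorphisms of `W` with square `1`. The Lie
algebra `𝔤` acts on `W` by combinations of products of two different generators and scalars, and the
associative algebra generated by `𝔤 ⊗ ℂ` contains elements which act on `W` like these products. -/
structure SpinPart (W : Summand g) : Prop where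
  /-- the relations of the Clifford algebra -/
  square : ∀ i, W.E i * W.E i = 1
  anti : ∀ i j, i ≠ j → W.E i * W.E j = -(W.E j * W.E i)
  /-- the rank -/
  rank : W.rank = 3 ∨ 6 ≤ W.rank
  /-- `Q` is a projection to the summand -/
  proj : W.Q * W.P = 1
  /-- the image of `P * Q` and its complement are stable under `𝔤` -/
  stable : ∀ X, InLie A X → W.P * W.Q * toC A X = toC A X * (W.P * W.Q)
  /-- `𝔤` acts through the orthogonal Lie algebra and the scalars -/
  acts : ∀ X, InLie A X → ∃ t : ℂ, act A W X + t • 1 ∈ so W
  /-- the associative algebra generated by `𝔤 ⊗ ℂ` -/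
  generates : ∀ i j, i ≠ j → ∃ Y ∈ Algebra.adjoin ℂ (lieC A : Set (EndC A)),
    W.E i * W.E j = W.Q * Y * W.P

/-- The centre of `𝔤`. -/
def centre : Set (Module.End ℚ A.H1) :=
  {Z | InLie A Z ∧ ∀ Y, InLie A Y → Z * Y = Y * Z}

/-- The derived algebra `[𝔤, 𝔤]`. -/
def derivedLie : Submodule ℚ (Module.End ℚ A.H1) :=
  Submodule.span ℚ {Z | ∃ X, InLie A X ∧ ∃ Y, InLie A Y ∧ Z = X * Y - Y * X}

/-- There is no nonzero `S`-linear map from the summand `W` to the summand `W'`. -/
def NoHom (S : Set (Module.End ℚ A.H1)) (W W' : Summand g) : Prop :=
  ∀ T : Matrix (Fin W'.dim) (Fin W.dim) ℂ, (∀ X ∈ S, T * act A W X = act A W' X * T) → T = 0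

/-- `𝔤` acts with the same scalars on the summands `W` and `W'`. -/
def SameScalars (W W' : Summand g) : Prop :=
  ∀ X, InLie A X → ∃ t : ℂ, act A W X + t • 1 ∈ so W ∧ act A W' X + t • 1 ∈ so W'

/-- The complex spans of `S` and of `[𝔤, 𝔤]` have the same image on the summand `W`. -/
def SameImage (S : Set (Module.End ℚ A.H1)) (W : Summand g) : Prop :=
  ∀ X ∈ derivedLie A, ∃ Y ∈ Submodule.span ℂ (toC A '' S), W.Q * toC A X = W.Q * Y

/-- `S` is a rational Lie subalgebra of `[𝔤, 𝔤]`. -/
def IsSubalgebra (S : Set (Module.End ℚ A.H1)) : Prop :=
  (∃ V : Submodule ℚ (Module.End ℚ A.H1), S = V) ∧ S ⊆ derivedLie A ∧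
    ∀ X ∈ S, ∀ Y ∈ S, X * Y - Y * X ∈ S

/-- `S` and the centre of `𝔤` generate an associative algebra which contains `𝔤`. -/
def Generates (S : Set (Module.End ℚ A.H1)) : Prop :=
  ∀ X, InLie A X → X ∈ Algebra.adjoin ℚ (S ∪ centre A)

/-- **Unlinked parts.** Either the ranks are different; or `𝔤` acts with the same scalars on the two
parts, and there is no nonzero `𝔤`-linear map between them; or there is no nonzero `S`-linear map for
all rational Lie subalgebras `S` of `[𝔤, 𝔤]` which together with the centre of `𝔤` generate an
associative algebra which contains `𝔤`, and have over `ℂ` the same image as `[𝔤, 𝔤]` on each of the two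
parts. -/
def Unlinked (W W' : Summand g) : Prop :=
  W.rank ≠ W'.rank ∨ (SameScalars A W W' ∧ NoHom A {X | InLie A X} W W') ∨
    ∀ S, IsSubalgebra A S → Generates A S → SameImage A S W → SameImage A S W' → NoHom A S W W'

/-! ### Motives -/

variable {s n : ℕ} (r : Fin s → ℕ) (w : Fin s → ℤ)

/-- The Betti realization of the sum of the motives `h^1(A) ^ {⊗ r i} (w i)`: families of multilinear
forms in `r i` variables in the rational homology. -/
abbrev Tensors : Type := ∀ i : Fin s, MultilinearMap ℚ (fun _ : Fin (r i) => A.H1) ℚ

variable {A r}

/-- `M` is the matrix of the action of the endomorphism `X` of the rational homology of `A` (as a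
derivation) on the space of tensors with the basis `B`. -/
def IsLieMatrix (B : Fin n → Tensors A r) (X : Module.End ℚ A.H1)
    (M : Matrix (Fin n) (Fin n) ℚ) : Prop :=
  ∀ a i v, ∑ k, B a i (Function.update v k (X (v k))) = ∑ b, M b a * B b i v

/-- The subspace with the basis `B` is the Betti realization of a direct factor `M` of the sum of the
motives `h^1(A) ^ {⊗ r i} (w i)`, and `P` is the matrix of the periods of `M` for the basis `B` and for
some basis of the de Rham realization of `M` over `ℚ̄`. -/
structure IsMotive (B : Fin n → Tensors A r) (P : Matrix (Fin n) (Fin n) ℂ) : Prop where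
  /-- `B` is a basis of a subspace -/
  basis : LinearIndependent ℚ B
  /-- the subspace is stable under `𝔤` -/
  lie : ∀ X, InLie A X → ∃ M : Matrix (Fin n) (Fin n) ℚ, IsLieMatrix B X M
  /-- the subspace is stable under the weights -/
  weight : ∃ M : Matrix (Fin n) (Fin n) ℚ, ∀ a i v,
    ((r i : ℚ) - 2 * w i) * B a i v = ∑ b, M b a * B b i v
  /-- the de Rham realization has a basis of elements with algebraic coefficients in terms of the
  tensor products of the elements of the basis of `H^1_dR(A / ℚ̄)` -/
  deRham : ∃ c : Fin n → ∀ i : Fin s, (Fin (r i) → Fin g ⊕ Fin g) → ℂ,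
    (∀ a i J, IsAlgebraic ℚ (c a i J)) ∧ ∀ a i (v : Fin (r i) → A.H1),
      ∑ J, c a i J * ∏ k, A.dR (J k) (v k) =
        (2 * Real.pi * Complex.I) ^ (w i) * ∑ b, P b a * (B b i v : ℂ)
  /-- the matrix of the periods is invertible -/
  det : P.det ≠ 0

/-! ### The Mumford-Tate domain -/

/-- `N` is the matrix of the action on `M` of the multiplication with `i` on `H_1(A, ℝ) = ℂ ^ g` (as a
derivation): the generator of the Lie algebra of the circle in the Hodge structure of `M`. -/
def IsComplexStructure (B : Fin n → Tensors A r) (N : Matrix (Fin n) (Fin n) ℝ) : Prop :=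
  ∀ a i (j : Fin (r i) → Fin (2 * g)),
    ∑ k, ∑ l : Fin (2 * g), A.lam.repr (Complex.I • A.lam (j k)) l *
        (B a i (Function.update (fun p => Pi.single (j p) 1) k (Pi.single l 1)) : ℝ) =
      ∑ b, N b a * (B b i (fun p => Pi.single (j p) 1) : ℝ)

/-- The part of the Hodge group which acts trivially on the summands `W_i` acts trivially
on the Mumford-Tate domain of `M`: if an element of `[𝔤, 𝔤] ⊗ ℂ`, which acts on `H_1(A, ℂ)` by `p.1`
and on `M` by `p.2`, acts trivially on all the summands (`Q * p.1 = 0` for the projections `Q`), then
`p.2` commutes with the complex structure `N` of `M`. -/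
def DomainOf {k : ℕ} (W : Fin k → Summand g) (B : Fin n → Tensors A r)
    (N : Matrix (Fin n) (Fin n) ℝ) : Prop :=
  ∀ p ∈ Submodule.span ℂ {p : EndC A × Matrix (Fin n) (Fin n) ℂ | ∃ X ∈ derivedLie A,
      ∃ M : Matrix (Fin n) (Fin n) ℚ, IsLieMatrix B X M ∧
        p = (toC A X, M.map fun q => (q : ℂ))},
    (∀ i, (W i).Q * p.1 = 0) → p.2 * N.map (fun x => (x : ℂ)) = N.map (fun x => (x : ℂ)) * p.2

/-- The Lie algebra of the Hodge group of `M`: the smallest rational Lie algebra whose real span
contains the complex structure `N`. -/
def hodgeLie (N : Matrix (Fin n) (Fin n) ℝ) : Submodule ℚ (Matrix (Fin n) (Fin n) ℚ) :=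
  sInf {L | (∀ x ∈ L, ∀ y ∈ L, x * y - y * x ∈ L) ∧
    N ∈ Submodule.span ℝ {M | ∃ x ∈ L, M = x.map fun q => (q : ℝ)}}

/-- The derived algebra. -/
def derived (L : Submodule ℚ (Matrix (Fin n) (Fin n) ℚ)) :
    Submodule ℚ (Matrix (Fin n) (Fin n) ℚ) :=
  Submodule.span ℚ {z | ∃ x ∈ L, ∃ y ∈ L, z = x * y - y * x}

/-- The centre of the Lie algebra acts trivially: an element of `𝔤` which acts on `M` like a central
element acts trivially. -/
def CentreActsTrivially (B : Fin n → Tensors A r) : Prop :=
  ∀ X, InLie A X → (∀ Y, InLie A Y → IsLieMatrix B (X * Y - Y * X) 0) → IsLieMatrix B X 0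

/-! ### Algebraic groups, torsors and the Mumford-Tate group -/

/-- A subgroup of `GL_R(ℂ)` defined by polynomials with rational coefficients. -/
def IsAlgebraicSubgroup {R : Type} [Fintype R] [DecidableEq R] (G : Subgroup (GL R ℂ)) : Prop :=
  ∃ I : Set (MvPolynomial (R × R) ℚ), ∀ x : GL R ℂ, x ∈ G ↔
    ∀ p ∈ I, MvPolynomial.aeval (fun b : R × R => (x : Matrix R R ℂ) b.1 b.2) p = 0

/-- The torsor `G · T⁻¹` of `G`: the matrices `F` such that `F T` is an element of `G`. It is
defined over `ℚ̄` if `T` is a matrix with algebraic entries. -/
def torsor (G : Subgroup (GL (Fin n) ℂ)) (T : Matrix (Fin n) (Fin n) ℂ) :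
    Set (Matrix (Fin n) (Fin n) ℂ) :=
  {F | ∃ x ∈ G, (x : Matrix (Fin n) (Fin n) ℂ) = F * T}

variable (A) in
/-- The Hodge structure of `H^1(A)`: the complex number `z` acts on `H_1(A, ℝ) = ℂ ^ g` by
multiplication, and on `H^1(A, ℝ)` by the transposed map, here in the basis of `H^1(A, ℚ)` which is
dual to the basis of the lattice. -/
def hodge (z : ℂ) : Matrix (Fin (2 * g)) (Fin (2 * g)) ℂ :=
  Matrix.of fun i j => ((A.lam.repr (z • A.lam i) j : ℝ) : ℂ)

/-- `R` is the matrix of the action of the complex number `z` on `M`, in the Hodge structure given by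
those of `H^1(A)` and of the Tate motives (`z` acts on `ℚ(1)` by `(z z̄)⁻¹`). -/
def IsHodgeMatrix (B : Fin n → Tensors A r) (z : ℂ) (R : Matrix (Fin n) (Fin n) ℂ) : Prop :=
  ∀ a i (j : Fin (r i) → Fin (2 * g)),
    ∑ j' : Fin (r i) → Fin (2 * g), (∏ k, hodge A z (j k) (j' k)) *
        (B a i (fun k => Pi.single (j' k) 1) : ℂ) =
      (z * (starRingEnd ℂ) z) ^ (w i) * ∑ b, R b a * (B b i (fun k => Pi.single (j k) 1) : ℂ)

/-- The Mumford-Tate group of `M`: the smallest algebraic group over `ℚ` which contains the image of
the Deligne torus. -/
def mumfordTate (B : Fin n → Tensors A r) : Subgroup (GL (Fin n) ℂ) :=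
  sInf {G | IsAlgebraicSubgroup G ∧ ∀ z : ℂ, z ≠ 0 → ∃ x ∈ G,
    IsHodgeMatrix w B z (x : Matrix (Fin n) (Fin n) ℂ)}

variable (A) in
/-- There is no factor of type IV: the Rosati involution is trivial on the centre of the algebra of
the endomorphisms, that is, the centre contains no nonzero element which is skew-symmetric for the
polarization `A.om`. (The endomorphisms of the de Rham-Betti object `H_1(A)` are the endomorphisms of
`A` by the theorem of Bost, which is proved in `Pool.Agent.Y102.AbVar.hodge_end`.) -/
def NoFactorOfTypeIV : Prop :=
  ∀ P : Module.End ℚ A.H1, IsDeRhamBettiEnd QBar A.dR P →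
    (∀ Q : Module.End ℚ A.H1, IsDeRhamBettiEnd QBar A.dR Q → P * Q = Q * P) →
    (∀ u v, A.om (P u) v + A.om u (P v) = 0) → P = 0

/-- **Theorem.** Let `W_1, ..., W_k` be spin parts of `H_1(A, ℂ)` which are unlinked. Let `M` be a motive in the tensor category generated by `h^1(A)` and the Tate motives, with
the matrix `P` of periods and the complex structure `N`, such that the part of the Hodge group of `A`
which acts trivially on all `W_i` acts trivially on the Mumford-Tate domain of `M`. Let `G` be an
algebraic group over `ℚ` with a torsor over `ℚ̄` which contains `P`.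

1. For all elements `Z` of the derived algebra of the Lie algebra of the Hodge group of `M` and all
   complex numbers `t` the matrix `exp (t Z)` is in `G`.
2. If `A` has no factor of type IV, or if the centre acts trivially on `M`, then the Mumford-Tate group
   of `M` is contained in `G`. -/
theorem result {g s n k : ℕ} (A : AbVar g) (W : Fin k → Summand g)
    (hA : ∀ i, SpinPart A (W i)) (hU : ∀ i j, i ≠ j → Unlinked A (W i) (W j))
    (r : Fin s → ℕ) (w : Fin s → ℤ)
    (B : Fin n → Tensors A r) (P : Matrix (Fin n) (Fin n) ℂ) (hM : IsMotive w B P)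
    (N : Matrix (Fin n) (Fin n) ℝ) (hN : IsComplexStructure B N) (hD : DomainOf W B N)
    (G : Subgroup (GL (Fin n) ℂ)) (hG : IsAlgebraicSubgroup G) (T : Matrix (Fin n) (Fin n) ℂ)
    (hT : ∀ i j, IsAlgebraic ℚ (T i j)) (hP : P ∈ torsor G T) :
    (∀ Z ∈ derived (hodgeLie N), ∀ t : ℂ, ∃ x ∈ G,
      (x : Matrix (Fin n) (Fin n) ℂ) = NormedSpace.exp (t • Z.map fun q => (q : ℂ))) ∧
    (NoFactorOfTypeIV A ∨ CentreActsTrivially B → mumfordTate w B ≤ G) := by
  have hrig := P8H30.SD.dpart_spin (A := A) (r := fun i => (W i).rank)
    (d := fun i => (W i).dim) (E := fun i => (W i).E) (P := fun i => (W i).P)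
    (Q := fun i => (W i).Q)
    (fun i => ⟨(hA i).square, (hA i).anti, (hA i).rank, (hA i).proj, (hA i).stable, (hA i).acts,
      (hA i).generates⟩) (fun i j hij => by
      rcases hU i j hij with h | ⟨h1, h2⟩ | h
      · exact Or.inl h
      · exact Or.inr (Or.inl ⟨h1, h2⟩)
      · refine Or.inr (Or.inr fun 𝔥 h3 h4 h5 h6 h7 => h 𝔥 ⟨⟨𝔥, rfl⟩, h3, h4⟩ h5 ?_ ?_)
        · intro X hX
          obtain ⟨Y, hY, e⟩ := h6 X hX
          refine ⟨Y, (Submodule.span_mono ?_) hY, e⟩
          rintro _ ⟨Z, hZ, rfl⟩
          exact ⟨Z, hZ, rfl⟩
        · intro X hX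
          obtain ⟨Y, hY, e⟩ := h7 X hX
          refine ⟨Y, (Submodule.span_mono ?_) hY, e⟩
          rintro _ ⟨Z, hZ, rfl⟩
          exact ⟨Z, hZ, rfl⟩)
  obtain ⟨hM', Wt, hW⟩ : N208.AM.Mot w B P ∧ ∃ Wt, N208.AM.WRel w B Wt := by
    have hwt : ∃ M, N208.AM.WRel w B M := by
      obtain ⟨M, h⟩ := hM.weight
      refine ⟨M, fun a i => MultilinearMap.ext fun v => ?_⟩
      rw [_root_.smul_apply, _root_.sum_apply, smul_eq_mul, h a i v]
      rfl
    refine ⟨⟨hM.basis, fun X hX => ?_, hwt, hM.det, hM.deRham⟩, hwt⟩
    obtain ⟨M, h⟩ := hM.lie X hX
    refine ⟨M, fun a i => MultilinearMap.ext fun v => ?_⟩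
    rw [N208.AM.dact_apply, _root_.sum_apply, h a i v]
    rfl
  have hrelL : ∀ X M, N208.AM.Rel B X M ↔ IsLieMatrix B X M := by
    intro X M
    constructor
    · intro h a i v
      have h1 := congrArg (fun φ : MultilinearMap ℚ (fun _ : Fin (r i) => A.H1) ℚ => φ v) (h a i)
      simp only [N208.AM.dact_apply, _root_.sum_apply, _root_.smul_apply, smul_eq_mul] at h1
      exact h1
    · intro h a i
      refine MultilinearMap.ext fun v => ?_
      rw [N208.AM.dact_apply, _root_.sum_apply, h a i v]
      rfl
  have hb : ∀ j : Fin (2 * g), A.bas j = Pi.single j 1 := fun j => by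
    unfold AbVar.bas
    rw [Pi.basisFun_apply]
  have hrel : ∀ z R, N208.AM.HRel w B z R → IsHodgeMatrix w B z R := by
    intro z R h a i j
    have h1 := h a i j
    simp only [hb] at h1
    exact h1
  have hA' : NoFactorOfTypeIV A → N208.AM.NT4 A := fun hA P hP hc hs =>
    hA P (A.mem_EA.1 hP) (fun Q hQ => hc Q (A.mem_EA.2 hQ)) hs
  have hNC : CentreActsTrivially B → N208.AM.NoCentre B := fun hc X hX h =>
    (hrelL X 0).2 (hc X hX fun Y hY => (hrelL _ 0).1 (h Y hY))
  -- the complex structure
  have hNR : N208.AM.RelR B AbVar.JJ N := by
    intro a i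
    refine Basis.ext_multilinear (fun _ => A.lam) fun j => ?_
    have h1 := hN a i j
    rw [N208.AM.dact_apply, _root_.sum_apply]
    have h2 : (fun p => A.lam (j p)) = fun p => A.per (Pi.single (j p) 1) := by
      funext p
      rw [← hb, A.per_bas]
    have h3 : ∀ b, (N b a • A.Phi (B b i)) (fun p => A.lam (j p)) =
        N b a * (B b i (fun p => Pi.single (j p) 1) : ℝ) := fun b => by
      rw [_root_.smul_apply, smul_eq_mul, h2, A.Phi_per]
    rw [Finset.sum_congr rfl fun b _ => h3 b, ← h1]
    refine Finset.sum_congr rfl fun k _ => ?_
    rw [AbVar.JJ_apply, ← A.lam.sum_repr (Complex.I • A.lam (j k)), MultilinearMap.map_update_sum]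
    simp only [A.lam.sum_repr]
    refine Finset.sum_congr rfl fun l _ => ?_
    rw [MultilinearMap.map_update_smul, smul_eq_mul]
    congr 1
    have h4 : A.lam l = A.per (Pi.single l 1) := by rw [← hb, A.per_bas]
    rw [h2, h4, N208.AM.update_per, A.Phi_per]
  have hα : ∀ p ∈ N113.BT.pC B (Pool.Agent.Y102.der A.NA),
      p.1 ∈ P8H30.SD.annF (fun i => P8H30.SD.pr (W i).P (W i).Q A) →
      p.2 * N208.AM.cxm N = N208.AM.cxm N * p.2 := by
    refine P8H30.SD.alpha_fam (fun i => (hA i).proj) fun p hp h0 => ?_
    refine hD p ?_ h0
    refine (Submodule.span_mono ?_) hp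
    rintro _ ⟨X, hX, M, hM, rfl⟩
    refine ⟨X, ?_, M, (hrelL _ _).1 hM, rfl⟩
    refine (Submodule.span_mono ?_) hX
    rintro _ ⟨X, hX, Y, hY, rfl⟩
    exact ⟨X, hX, Y, hY, rfl⟩
  -- the group
  have hdet : T.det ≠ 0 := by
    obtain ⟨x, -, hxT⟩ := hP
    intro h0
    have h1 : (x : Matrix (Fin n) (Fin n) ℂ).det = 0 := by
      rw [hxT, Matrix.det_mul, h0, mul_zero]
    exact (Matrix.GeneralLinearGroup.det x).ne_zero h1
  obtain ⟨T', h1, h2⟩ := Pool.Agent.R917.alg_inv hT hdet
  obtain ⟨x, hx, hxT⟩ := hP
  have hH : N208.AM.PtM P _ := ⟨Pool.Agent.R917.algGrp_of hG, T, T', h1, h2, x, hx, hxT⟩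
  refine ⟨fun Z hZ t => ?_, fun hA => ?_⟩
  · obtain ⟨L, hL1, hL2, hL3⟩ := P8H30.SD.main_der' hM' hW hH hrig hNR hα
    have h3 : hodgeLie N ≤ L := sInf_le ⟨hL1, hL2⟩
    have h4 : derived (hodgeLie N) ≤
        N208.AM.LQ {M | ∃ x ∈ G, (x : Matrix (Fin n) (Fin n) ℂ) = M} := by
      unfold derived
      rw [Submodule.span_le]
      rintro _ ⟨x, hx, y, hy, rfl⟩
      exact hL3 x (h3 hx) y (h3 hy)
    exact Pool.Agent.R917.exp_mem hH.grp fun d => (h4 hZ d).smul t
  · have hc : N208.AM.NoCentre B := hA.elim
      (fun h => N208.AM.noCentre_of_NT4 hM' (hA' h)) hNC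
    refine sInf_le ⟨hG, fun z hz => ?_⟩
    obtain ⟨⟨x, hx, hx'⟩, h4⟩ := P8H30.SD.main_B' hM' hW hH hc hrig hNR hα hz
    refine ⟨x, hx, ?_⟩
    rw [hx']
    exact hrel _ _ h4

end Pool.Agent.Results.MP_57341d_ag.ProductsOfTypeIVDomains
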