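import Pool.Agent.P8H30.BPD.Proof

set_option autoImplicit false

/-!
# The period groups of motives with a unitary place of signature `(1, k)` contain `SO(1, k)`

Let `A` be an abelian variety over `ℚ̄` and let `M` be any André motive over `ℚ̄` in the tensor
category generated by `h^1(A)` and the Tate motives. Let `P` be the matrix of the periods
of `M`, and let `G ⊆ GL(H_B(M))` be *any* algebraic group over `ℚ` such that the comparison
isomorphism of `M` is a point of a torsor of `G` defined over `ℚ̄`: `P T ∈ G(ℂ)` for some matrix `T`
with algebraic entries. By theorems of Deligne and André the motivic Galois group of `M` is its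
Mumford-Tate group `MT(M)`, and `P` is a point of a torsor of `MT(M)`. The conjecture of Grothendieck
says that `P` is a generic point of this torsor; in particular it predicts that every such `G`
contains `MT(M)` (this prediction is equivalent to: all de Rham-Betti classes in the tensor
constructions of `M` are Hodge classes).

**The place** (`UnitaryPlace`). Let `z` be an element of the centre of `End(A) ⊗ ℚ` which is
skew-symmetric for the polarization, such that every element of the centre is a polynomial in `z` on
the image of `z`, and let `i a ≠ 0` be an eigenvalue of `z` on the tangent space `ℂ ^ g` of `A` whose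
eigenspace is a *simple* module over `End(A)`. For example let `A` be isogenous to `A₁ ^ m × A₂`, `A₁`
simple, `Hom(A₁, A₂) = 0`, let the centre of `End(A₁) ⊗ ℚ` be a CM field `F`, and `z ∈ F` a
generator with `z̄ = - z`; then the condition says that `F` has the signature `(1, k)` at the place of
`a`, for some `k`. Nothing is assumed about the other places of `F`, about the algebra
`End(A₁) ⊗ ℚ`, or about `A₂`.

**Frames** (`RealFrame`). The sum `V` of the eigenspaces of `z` for `± i a` on
`H_1(A, ℝ) = ℂ ^ g` is generated over `End(A)` by a simple module `W` over the Lie algebra `𝔤` of the
Hodge group of `A` and `z`. The form `E(x, z y) / a` is hermitian for the complex structure `z / a` of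
`W` (more precisely, the symmetric form which belongs to a hermitian form), with the signature
`(1, k)`. A real frame consists of vectors `x_0, …, x_k` with `E(x_i, x_j) = 0`, `E(x_i, z x_j) = 0`
for `i ≠ j`, `E(x_0, z x_0) = a`, `E(x_i, z x_i) = - a` for `i > 0`, such that `x_i`, `z x_i` span a
module `W` of this kind. The real span of the `x_i` is a real form of `W`, and gives a
totally real and totally geodesic real hyperbolic space of dimension `k` in the complex ball of
dimension `k`.

**Theorem.** For every `M` and `G` there is a real frame `x` such that:

1. `G` contains the infinitesimal rotations (`ContainsRotations`): for all `i`, `j` there is an element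
   of `[𝔤, 𝔤] ⊗ ℝ` which acts on `W` by `x_j ↦ ± x_i`, `x_i ↦ ∓ x_j`, and by zero on the other vectors of
   the frame, and which acts on `M` by a matrix in the Lie algebra of `G(ℂ)`. So the subalgebra of
   the elements of `[𝔤, 𝔤] ⊗ ℝ` which act on `M` by elements of the Lie algebra of `G(ℂ)` is mapped
   onto an algebra which contains a copy of `so(1, k)` in the Lie algebra `u(1, k)` of the unitary
   group of `W`. (If the elements of `[𝔤, 𝔤] ⊗ ℝ` which act by zero on `M` act by zero on `W`, for
   example for `M = h^1(A)`, then the dimension of `G` is at least `k (k + 1) / 2`.)
2. *Dichotomy.* Either `[𝔤, 𝔤] ⊗ ℝ` and the Lie algebra of `G ∩ MT(M)` agree on `V`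
   (`IsEverything`), and then, if the Mumford-Tate domain of `M` is the ball of this place (`DomainOf`:
   the part of the Hodge group of `A` which acts trivially on `V` acts trivially on the domain), the
   group `G` contains the derived group of `MT(M)`, and `MT(M)` if the centre acts trivially on `M`;
   or the derived algebra of the Lie algebra of `G ∩ MT(M)` preserves the real span of the frame
   (`IsReal`), so its image in `u(1, k)` is exactly `so(1, k)`.

If all endomorphisms of `A` are polynomials in `z` (`RealFrame.full`), then `W = V`, so that the
frame spans everything over `ℝ[z]`. For example, for `End(A) ⊗ ℚ` imaginary quadratic of signature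
`(1, g - 1)` we have `k + 1 = g`: all groups `G` for `M = h^1(A)` contain a conjugate of
`SO(1, g - 1)` in `U(1, g - 1)`, and if `G` does not contain `SU(1, g - 1)` then the derived algebra
of the Lie algebra of `G ∩ U(1, g - 1)` is that of such a group.

Known before: if `k` is odd then the first case holds (`BallMotives`, `MiddleExteriorMotives`,
`UnitaryKugaSatake`, if `F` is imaginary quadratic or under conditions on the motive; there the middle
exterior power is used), and it holds under a condition of separation which excludes the real
structures by arithmetic (`ProductsOfBalls`), for example for division algebras of odd degree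
over `F`; and the image of the Lie algebra of `G ∩ MT(M)` in `u(1, k)` is not compact
(`NoncompactPeriodGroups`). For `k` even and `End(A₁) ⊗ ℚ = F` nothing more was known: there are no
classes which distinguish `SO(1, k)` from `SU(1, k)` in exterior powers of `h^1(A)`. The theorem
shows that `SO(1, k)` is the only obstruction.

Nothing is assumed about periods: `AbVar` is the description of an abelian variety over `ℚ̄` by theta
functions (see `Pool/Agent/Y102/AVDefs.lean`, where it is explained why every abelian variety has it),
and the transcendence theorems which are used, the theorem of Schneider and Lang and the
transcendence of `π`, are proved in this repository. The group `G` is not assumed to be reductive.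

## Motives

As `h^1(A)` is dual to `h^1(A)(1)`, the motive `M` is a direct factor of a sum of motives
`h^1(A) ^ {⊗ r i} (w i)`. Its Betti realization is a space of families of multilinear forms with
rational values, in `r i` variables in `H_1(A, ℚ)`, with a basis `B`. It is the image of a motivated
projector, and the realizations of motivated classes are Hodge classes and de Rham-Betti classes; so
it is stable under the Lie algebra `𝔤` of the endomorphisms of `H_1(A, ℚ)` which annihilate all
classes that are Hodge classes and de Rham-Betti classes (`InLie`), and under the weights. The de Rham
realization has a basis which consists of combinations of products of elements of `H^1_dR(A / ℚ̄)`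
with algebraic coefficients. The matrix `P` of the periods expresses it in terms of the basis
`(2 π i) ^ (w i) B` of the Betti realization (`IsMotive`). By the theorem of Deligne `𝔤` is the Lie
algebra of the Hodge group of `A`, and its image in the endomorphisms of `M` is the Lie algebra of
the Hodge group of `M`.

## Proof

Let `𝔮` be the set of the `X` in `𝔤` whose action on `M` is in the Lie algebra of `G` up to a multiple
of the weight operator. By the theorem of Schneider and Lang `𝔮` acts semisimply on `H_1(A, ℚ)`, with
the same commutant as `𝔤` (`Pool.Agent.N208.AM.qM_full`). So the image `𝔯` of `[𝔮, 𝔮] ⊗ ℝ` in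
`u(1, k)` is irreducible and perfect. The group generated by `𝔯` contains a hyperbolic isometry
(`Pool.Agent.N208.BT`), with isotropic eigenvectors `u`, `v`, and the dynamics gives elements of `𝔯`: either
`i h(·, u) u` and `i h(·, v) v`, and then `𝔯` contains all `i h(·, x) x`, `x` isotropic, so that
`𝔯 = su(1, k)`; or no element of `𝔯` has a nonzero component of this kind, and `𝔯` contains
`N_w : x ↦ h(x, u) w - h(x, w) u` for the `w` of a real form `P` of the complement of `u`, `v`, and
the same with `u` and `v` exchanged (`Pool.Agent.N558.BTB`). From the brackets of these elements we
get all infinitesimal rotations `x ↦ h(x, q) p - h(x, p) q` with `p`, `q` in the real form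
`ℝ u + ℝ v + P` (`Rot_mem`), which is stable under `𝔯`; an orthonormal basis of it is the frame.
-/

open Module Matrix Pool.Agent.Y102 Pool.Agent.P8H30.BPD

noncomputable section

namespace Pool.Agent.Results.MP_57341d_ag.RealHyperbolicPeriodGroups

/-- **Theorem.** Let `z` be a central skew-symmetric endomorphism of the abelian variety `A` with a
unitary place `a` of signature `(1, k)`. Let `M` be a motive in the tensor category generated by
`h^1(A)` and the Tate motives, with the matrix `P` of periods, and let `G` be an algebraic group over
`ℚ` with a torsor over `ℚ̄` which contains `P`. Then there is a real frame such that `G` contains the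
infinitesimal rotations of the frame; and either the Lie algebra of `G` is everything at this place,
and `G` contains the derived group of the Mumford-Tate group of `M`, if the domain of `M` is that of
the place, or the derived algebra of the Lie algebra of `G` is real for the frame, so that it acts as
the Lie algebra `so(1, k)`. -/
theorem result {g : ℕ} (A : AbVar g) (z : Module.End ℚ A.H1) (a : ℝ) (hA : UnitaryPlace A z a) :
    ∃ k : ℕ, ∀ {s n : ℕ} (r : Fin s → ℕ) (w : Fin s → ℤ) (B : Fin n → Tensors A r)
      (P : Matrix (Fin n) (Fin n) ℂ), IsMotive w B P →
      ∀ G : Subgroup (GL (Fin n) ℂ), IsAlgebraicSubgroup G → ∀ T : Matrix (Fin n) (Fin n) ℂ,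
      (∀ i j, IsAlgebraic ℚ (T i j)) → P ∈ torsor G T →
      ∃ x : Fin (k + 1) → (Fin g → ℂ), RealFrame A z a x ∧ ContainsRotations B G z x ∧
        (IsEverything B G z a ∧ ContainsDerived w B G z a ∨ IsReal B G x) :=
  main A z a hA

end Pool.Agent.Results.MP_57341d_ag.RealHyperbolicPeriodGroups
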